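import Pool.Agent.Run7.h519.FL.Stm

set_option autoImplicit false

noncomputable section

open MeasureTheory Filter Topology Set
open scoped BigOperators ComplexConjugate

namespace Run7.h751.FL

open Run7.h519.FL

theorem FN'_eq (N : ℕ) (z : ℂ) :
    FN' N z = ∑ j ∈ Finset.range ((U N).natDegree + 1), ((U N).coeff j : ℂ) * (z ^ 2) ^ j := by
  unfold FN'
  rw [Polynomial.aeval_eq_sum_range]
  simp only [Complex.real_smul]

theorem FN_der (N : ℕ) (z : ℂ) : HasDerivAt (FN N) (FN' N z) z := by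
  rw [FN'_eq]
  unfold FN
  have h : ∀ j ∈ Finset.range ((U N).natDegree + 1), HasDerivAt
      (fun z : ℂ => ((U N).coeff j : ℂ) * (z ^ (2 * j + 1) / ((2 * j + 1 : ℕ) : ℂ)))
      (((U N).coeff j : ℂ) * (z ^ 2) ^ j) z := by
    intro j _
    have h1 := (hasDerivAt_pow (2 * j + 1) z).div_const ((2 * j + 1 : ℕ) : ℂ)
    have h2 := h1.const_mul ((U N).coeff j : ℂ)
    refine h2.congr_deriv ?_
    have h3 : ((2 * j + 1 : ℕ) : ℂ) ≠ 0 := Nat.cast_ne_zero.2 (by omega)
    rw [Nat.add_sub_cancel, mul_div_cancel_left₀ _ h3, pow_mul]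
  exact HasDerivAt.fun_sum h

theorem FN_diff (N : ℕ) : Differentiable ℂ (FN N) := fun z => (FN_der N z).differentiableAt

theorem FN_cont (N : ℕ) : Continuous (FN N) := (FN_diff N).continuous

theorem FN'_diff (N : ℕ) : Differentiable ℂ (FN' N) := by
  have : FN' N = fun z => ∑ j ∈ Finset.range ((U N).natDegree + 1), ((U N).coeff j : ℂ) * (z ^ 2) ^ j :=
    funext (FN'_eq N)
  rw [this]
  fun_prop

theorem FN_neg (N : ℕ) (z : ℂ) : FN N (-z) = -FN N z := by
  unfold FN
  rw [← Finset.sum_neg_distrib]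
  refine Finset.sum_congr rfl fun j _ => ?_
  rw [Odd.neg_pow ⟨j, rfl⟩]
  ring

theorem FN_conj (N : ℕ) (z : ℂ) : FN N (conj z) = conj (FN N z) := by
  unfold FN
  rw [map_sum]
  refine Finset.sum_congr rfl fun j _ => ?_
  rw [map_mul, map_div₀, map_pow, Complex.conj_ofReal, map_natCast]

theorem FN_zero (N : ℕ) : FN N 0 = 0 := by
  unfold FN
  refine Finset.sum_eq_zero fun j _ => ?_
  simp

theorem BB_cont (N : ℕ) : Continuous (BB N) := by
  induction N with
  | zero => exact continuous_const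
  | succ n ih =>
    have : BB (n + 1) = fun t => t * BB n t + uu n / 2 := rfl
    rw [this]
    fun_prop

theorem BB_nonneg (h2 : S_P2) (N : ℕ) {t : ℝ} (ht : 0 ≤ t) : 0 < BB N t := by
  induction N with
  | zero => exact one_pos
  | succ n ih =>
    have : BB (n + 1) t = t * BB n t + uu n / 2 := rfl
    rw [this]
    have := (h2 n).1
    positivity

theorem sinp_cont (N : ℕ) : Continuous fun t : ℝ => Real.sin t ^ (2 * N + 1) := by fun_prop

theorem yf_cont (N : ℕ) : Continuous fun t : ℝ => Real.cos t * BB N (Real.sin t ^ 2) := by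
  have := BB_cont N
  fun_prop

theorem xN_sub (N : ℕ) (a b : ℝ) : xN N a - xN N b = ∫ t in a..b, Real.sin t ^ (2 * N + 1) := by
  unfold xN
  have := intervalIntegral.integral_add_adjacent_intervals
    ((sinp_cont N).intervalIntegrable (μ := volume) a b)
    ((sinp_cont N).intervalIntegrable (μ := volume) b (Real.pi / 2))
  linarith

theorem xN_dN (N : ℕ) (a : ℝ) : xN N a = xN N 0 - dN N a := by
  have := xN_sub N 0 a
  unfold dN
  linarith

theorem yN_sub (N : ℕ) (a b : ℝ) : yN N b - yN N a =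
    ∫ t in a..b, Real.cos t * BB N (Real.sin t ^ 2) := by
  unfold yN
  have := intervalIntegral.integral_add_adjacent_intervals
    ((yf_cont N).intervalIntegrable (μ := volume) 0 a)
    ((yf_cont N).intervalIntegrable (μ := volume) a b)
  linarith

theorem xN_anti (N : ℕ) {a b : ℝ} (ha : 0 ≤ a) (hab : a ≤ b) (hb : b ≤ Real.pi) :
    xN N b ≤ xN N a := by
  have h1 := xN_sub N a b
  have h2 : 0 ≤ ∫ t in a..b, Real.sin t ^ (2 * N + 1) :=
    intervalIntegral.integral_nonneg hab fun t ht =>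
      pow_nonneg (Real.sin_nonneg_of_mem_Icc ⟨ha.trans ht.1, ht.2.trans hb⟩) _
  linarith

theorem xN_neg (N : ℕ) (a : ℝ) : xN N (-a) = xN N a := by
  have h1 := xN_sub N (-a) a
  have h2 := intervalIntegral.integral_comp_neg (a := -a) (b := a)
    (fun t : ℝ => Real.sin t ^ (2 * N + 1))
  rw [neg_neg] at h2
  have h3 : (∫ t in (-a)..a, Real.sin (-t) ^ (2 * N + 1)) =
      -∫ t in (-a)..a, Real.sin t ^ (2 * N + 1) := by
    rw [← intervalIntegral.integral_neg]
    refine intervalIntegral.integral_congr fun t _ => ?_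
    simp only [Real.sin_neg]
    rw [Odd.neg_pow ⟨N, rfl⟩]
  linarith

theorem xN_abs (N : ℕ) (a : ℝ) : xN N |a| = xN N a := by
  rcases abs_choice a with h | h
  · rw [h]
  · rw [h, xN_neg]

theorem xN_cont (N : ℕ) : Continuous (xN N) := by
  have h1 : xN N = fun a => xN N 0 - ∫ t in (0 : ℝ)..a, Real.sin t ^ (2 * N + 1) :=
    funext fun a => xN_dN N a
  rw [h1]
  exact continuous_const.sub (intervalIntegral.continuous_primitive
    (fun a b => (sinp_cont N).intervalIntegrable a b) 0)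

theorem yN_mono (h2 : S_P2) (N : ℕ) {a b : ℝ} (ha : -(Real.pi / 2) ≤ a) (hab : a ≤ b)
    (hb : b ≤ Real.pi / 2) : yN N a ≤ yN N b := by
  have h1 := yN_sub N a b
  have h3 : 0 ≤ ∫ t in a..b, Real.cos t * BB N (Real.sin t ^ 2) :=
    intervalIntegral.integral_nonneg hab fun t ht =>
      mul_nonneg (Real.cos_nonneg_of_mem_Icc ⟨ha.trans ht.1, ht.2.trans hb⟩)
        (BB_nonneg h2 N (sq_nonneg _)).le
  linarith

theorem yN_neg (N : ℕ) (a : ℝ) : yN N (-a) = -yN N a := by
  unfold yN
  have h2 := intervalIntegral.integral_comp_neg (a := 0) (b := a)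
    (fun t : ℝ => Real.cos t * BB N (Real.sin t ^ 2))
  rw [neg_zero] at h2
  have h3 : (∫ t in (0 : ℝ)..a, Real.cos (-t) * BB N (Real.sin (-t) ^ 2)) =
      ∫ t in (0 : ℝ)..a, Real.cos t * BB N (Real.sin t ^ 2) := by
    refine intervalIntegral.integral_congr fun t _ => ?_
    simp only [Real.sin_neg, Real.cos_neg, neg_sq]
  rw [intervalIntegral.integral_symm, ← h2, h3]

/-- points of the circle -/
theorem circ {z : ℂ} (hz : ‖z‖ = 1) : ∃ α : ℝ, -Real.pi < α ∧ α ≤ Real.pi ∧
    z = Complex.exp ((α : ℂ) * Complex.I) := by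
  refine ⟨Complex.arg z, Complex.neg_pi_lt_arg z, Complex.arg_le_pi z, ?_⟩
  have := Complex.norm_mul_exp_arg_mul_I z
  rw [hz, Complex.ofReal_one, one_mul] at this
  exact this.symm

/-- a bound of the real part on the disc from the circle -/
theorem re_le {f : ℂ → ℂ} (hf : Differentiable ℂ f) {C : ℝ}
    (h : ∀ z : ℂ, ‖z‖ = 1 → (f z).re ≤ C) {z : ℂ} (hz : ‖z‖ ≤ 1) : (f z).re ≤ C := by
  have h1 : ‖Complex.exp (f z)‖ ≤ Real.exp C := by
    refine Complex.norm_le_of_forall_mem_frontier_norm_le (U := Metric.ball (0 : ℂ) 1)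
      Metric.isBounded_ball (f := fun w => Complex.exp (f w))
      (by exact (Complex.differentiable_exp.comp hf).diffContOnCl) ?_ ?_
    · intro w hw
      rw [frontier_ball (0 : ℂ) one_ne_zero, mem_sphere_zero_iff_norm] at hw
      rw [Complex.norm_exp]
      exact Real.exp_le_exp.2 (h w hw)
    · rw [closure_ball (0 : ℂ) one_ne_zero, mem_closedBall_zero_iff]
      exact hz
  rw [Complex.norm_exp] at h1
  exact Real.exp_le_exp.1 h1

/-- strict version -/
theorem re_lt {f : ℂ → ℂ} (hf : Differentiable ℂ f) {C : ℝ}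
    (h : ∀ z : ℂ, ‖z‖ = 1 → (f z).re ≤ C) {w : ℂ} (hw : ‖w‖ ≤ 1) (hwC : (f w).re < C)
    {z : ℂ} (hz : ‖z‖ < 1) : (f z).re < C := by
  rcases (re_le hf h hz.le).lt_or_eq with h1 | h1
  · exact h1
  exfalso
  have hm : IsMaxOn (norm ∘ fun v => Complex.exp (f v)) (Metric.ball (0 : ℂ) 1) z := by
    intro v hv
    simp only [Function.comp, mem_ofPred_eq, Complex.norm_exp]
    rw [mem_ball_zero_iff] at hv
    exact Real.exp_le_exp.2 (h1 ▸ re_le hf h hv.le)
  have h2 := Complex.norm_eqOn_closure_of_isPreconnected_of_isMaxOn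
    (convex_ball (0 : ℂ) 1).isPreconnected Metric.isOpen_ball
    (f := fun v => Complex.exp (f v))
    ((Complex.differentiable_exp.comp hf).diffContOnCl) (by rwa [mem_ball_zero_iff]) hm
  have h3 := h2 (show w ∈ closure (Metric.ball (0 : ℂ) 1) by
    rw [closure_ball (0 : ℂ) one_ne_zero, mem_closedBall_zero_iff]; exact hw)
  simp only [Function.comp, Complex.norm_exp, Function.const] at h3
  have h4 := Real.exp_injective h3
  linarith

end Run7.h751.FL
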