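import Pool.Agent.Run7.h751.FL.Base

set_option autoImplicit false

noncomputable section

open MeasureTheory Filter Topology Set
open scoped BigOperators ComplexConjugate

namespace Run7.h751.FL

open Run7.h519.FL

/-- `2 Re f'` for the function on the strip -/
def pp (N : ℕ) (z : ℂ) : ℂ := (1 - z ^ 2) * FN' N z

theorem pp_diff (N : ℕ) : Differentiable ℂ (pp N) := by
  have := FN'_diff N
  unfold pp
  fun_prop

theorem pp_circ (h1 : S_P1) (N : ℕ) (θ : ℝ) :
    pp N (Complex.exp ((θ : ℂ) * Complex.I)) =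
      -2 * Complex.I * (Real.sin θ : ℂ) * (((Real.cos θ * BB N (Real.sin θ ^ 2) : ℝ) : ℂ) +
        ((Real.sin θ ^ (2 * N + 1) : ℝ) : ℂ) * Complex.I) := by
  rw [← (h1 N θ).1]
  unfold pp
  have e1 : (1 : ℂ) - Complex.exp ((θ : ℂ) * Complex.I) ^ 2 =
      -2 * Complex.I * (Real.sin θ : ℂ) * Complex.exp ((θ : ℂ) * Complex.I) := by
    have e2 : Complex.exp ((θ : ℂ) * Complex.I) = (Real.cos θ : ℂ) + (Real.sin θ : ℂ) * Complex.I := by
      rw [Complex.exp_mul_I, Complex.ofReal_cos, Complex.ofReal_sin]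
    have e3 : (Real.cos θ : ℂ) ^ 2 + (Real.sin θ : ℂ) ^ 2 = 1 := by
      rw [← Complex.ofReal_pow, ← Complex.ofReal_pow, ← Complex.ofReal_add, Real.cos_sq_add_sin_sq,
        Complex.ofReal_one]
    rw [e2]
    linear_combination (1 : ℂ) * (-e3) + ((Real.sin θ : ℂ) ^ 2) * Complex.I_sq
  rw [e1]
  ring

theorem pp_re_circ (h1 : S_P1) (N : ℕ) (θ : ℝ) :
    (pp N (Complex.exp ((θ : ℂ) * Complex.I))).re = 2 * Real.sin θ ^ (2 * N + 2) := by
  rw [pp_circ h1]
  have : (-2 * Complex.I * (Real.sin θ : ℂ) * (((Real.cos θ * BB N (Real.sin θ ^ 2) : ℝ) : ℂ) +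
        ((Real.sin θ ^ (2 * N + 1) : ℝ) : ℂ) * Complex.I)) =
      ((2 * Real.sin θ ^ (2 * N + 2) : ℝ) : ℂ) +
      ((-2 * Real.sin θ * (Real.cos θ * BB N (Real.sin θ ^ 2)) : ℝ) : ℂ) * Complex.I := by
    push_cast
    linear_combination (-2 * (Complex.sin θ) * (Complex.sin θ) ^ (2 * N + 1)) * Complex.I_sq
  rw [this]
  simp only [Complex.add_re, Complex.mul_re, Complex.ofReal_re, Complex.ofReal_im, Complex.I_re,
    Complex.I_im, mul_zero, mul_one, sub_zero, add_zero]

theorem pp_re (h1 : S_P1) (N : ℕ) {z : ℂ} (hz : ‖z‖ ≤ 1) : 0 ≤ (pp N z).re := by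
  have h := re_le (f := fun w => -pp N w) (pp_diff N).neg (C := 0) ?_ hz
  · simpa using h
  · intro w hw
    obtain ⟨α, -, -, rfl⟩ := circ hw
    rw [Complex.neg_re, pp_re_circ h1]
    have : 0 ≤ Real.sin α ^ (2 * N + 2) := by
      rw [show 2 * N + 2 = 2 * (N + 1) by ring, pow_mul]
      positivity
    linarith

/-- the map of the strip to the disc -/
def ww (φ : ℂ) : ℂ := (Complex.exp φ - 1) / (Complex.exp φ + 1)

theorem exp_re {φ : ℂ} (h : |φ.im| ≤ Real.pi / 2) : 0 ≤ (Complex.exp φ).re := by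
  rw [Complex.exp_re]
  rw [abs_le] at h
  exact mul_nonneg (Real.exp_pos _).le (Real.cos_nonneg_of_mem_Icc ⟨h.1, h.2⟩)

theorem exp_ne {φ : ℂ} (h : |φ.im| ≤ Real.pi / 2) : Complex.exp φ + 1 ≠ 0 := by
  intro h0
  have := congrArg Complex.re h0
  simp only [Complex.add_re, Complex.one_re, Complex.zero_re] at this
  linarith [exp_re h]

theorem ww_norm {φ : ℂ} (h : |φ.im| ≤ Real.pi / 2) : ‖ww φ‖ ≤ 1 := by
  unfold ww
  rw [norm_div, div_le_one (norm_pos_iff.2 (exp_ne h))]
  apply le_of_sq_le_sq _ (norm_nonneg _)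
  rw [← Complex.normSq_eq_norm_sq, ← Complex.normSq_eq_norm_sq, Complex.normSq_apply,
    Complex.normSq_apply]
  simp only [Complex.sub_re, Complex.sub_im, Complex.add_re, Complex.add_im, Complex.one_re,
    Complex.one_im]
  nlinarith [exp_re h]

theorem ww_der {φ : ℂ} (h : |φ.im| ≤ Real.pi / 2) : HasDerivAt ww ((1 - ww φ ^ 2) / 2) φ := by
  have h0 := exp_ne h
  have h1 := ((Complex.hasDerivAt_exp φ).sub_const 1).div ((Complex.hasDerivAt_exp φ).add_const 1) h0
  refine h1.congr_deriv ?_
  unfold ww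
  field_simp
  ring

theorem f_der (N : ℕ) {φ : ℂ} (h : |φ.im| ≤ Real.pi / 2) :
    HasDerivAt (fun φ => FN N (ww φ)) (pp N (ww φ) / 2) φ := by
  have h1 := (FN_der N (ww φ)).comp φ (ww_der h)
  refine h1.congr_deriv ?_
  unfold pp
  ring

/-- monotonicity along segments of the closed strip -/
theorem f_mono (h1 : S_P1) (N : ℕ) {a b : ℂ} (ha : |a.im| ≤ Real.pi / 2)
    (hb : |b.im| ≤ Real.pi / 2) :
    0 ≤ ((FN N (ww b) - FN N (ww a)) * conj (b - a)).re := by
  have hin : ∀ t : ℝ, t ∈ Icc (0 : ℝ) 1 → |(a + (t : ℂ) * (b - a)).im| ≤ Real.pi / 2 := by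
    intro t ht
    have e : (a + (t : ℂ) * (b - a)).im = (1 - t) * a.im + t * b.im := by
      simp only [Complex.add_im, Complex.mul_im, Complex.ofReal_re, Complex.ofReal_im,
        Complex.sub_im, zero_mul, add_zero]
      ring
    rw [e]
    rw [abs_le] at ha hb ⊢
    constructor
    · nlinarith [ht.1, ht.2, mul_nonneg (sub_nonneg.2 ht.2) (sub_nonneg.2 ha.1),
        mul_nonneg ht.1 (sub_nonneg.2 hb.1)]
    · nlinarith [ht.1, ht.2, mul_nonneg (sub_nonneg.2 ht.2) (sub_nonneg.2 ha.2),
        mul_nonneg ht.1 (sub_nonneg.2 hb.2)]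
  set g : ℝ → ℝ := fun t => (FN N (ww (a + (t : ℂ) * (b - a))) * conj (b - a)).re with hg
  have hd : ∀ t ∈ Icc (0 : ℝ) 1, HasDerivAt g
      ((pp N (ww (a + (t : ℂ) * (b - a))) / 2 * (b - a) * conj (b - a)).re) t := by
    intro t ht
    have e1 : HasDerivAt (fun t : ℝ => a + (t : ℂ) * (b - a)) (b - a) t := by
      have := ((Complex.ofRealCLM.hasDerivAt (x := t)).mul_const (b - a)).const_add a
      simpa using this
    have e2 := ((f_der N (hin t ht)).comp t e1).mul_const (conj (b - a))
    exact Complex.reCLM.hasFDerivAt.comp_hasDerivAt t e2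
  have hm : MonotoneOn g (Icc (0 : ℝ) 1) := by
    refine monotoneOn_of_deriv_nonneg (convex_Icc 0 1)
      (fun t ht => (hd t ht).continuousAt.continuousWithinAt)
      (fun t ht => (hd t (interior_subset ht)).differentiableAt.differentiableWithinAt) ?_
    intro t ht
    rw [(hd t (interior_subset ht)).deriv, mul_assoc, Complex.mul_conj, Complex.re_mul_ofReal]
    have := pp_re h1 N (ww_norm (hin t (interior_subset ht)))
    have e : (pp N (ww (a + (t : ℂ) * (b - a))) / 2).re =
        (pp N (ww (a + (t : ℂ) * (b - a)))).re / 2 := by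
      rw [show (2 : ℂ) = ((2 : ℝ) : ℂ) by norm_num, Complex.div_ofReal_re]
    rw [e]
    exact mul_nonneg (by linarith) (Complex.normSq_nonneg _)
  have := hm (left_mem_Icc.2 zero_le_one) (right_mem_Icc.2 zero_le_one) zero_le_one
  simp only [hg, Complex.ofReal_zero, zero_mul, add_zero, Complex.ofReal_one, one_mul,
    add_sub_cancel] at this
  rw [sub_mul, Complex.sub_re]
  linarith

/-- the upper right part of the image is on the left of the boundary curve -/
theorem main_aux (h1 : S_P1) (h2 : S_P2) (N : ℕ) {z : ℂ} (hz : ‖z‖ ≤ 1) {θ : ℝ} (hθ : 0 < θ)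
    (hθ' : θ < Real.pi / 2) (hx : xN N θ < (FN N z).re) : (FN N z).im ≤ yN N θ := by
  have hpi := Real.pi_pos
  rcases hz.lt_or_eq with hlt | heq
  · -- inside
    have hcirc : ∀ w : ℂ, ‖w‖ = 1 → (FN N w).re ≤ xN N 0 := by
      intro w hw
      obtain ⟨α, ha1, ha2, rfl⟩ := circ hw
      rw [(h1 N α).2]
      simp only [Complex.add_re, Complex.ofReal_re, Complex.mul_re, Complex.I_re, mul_zero,
        Complex.ofReal_im, Complex.I_im, mul_one, sub_self, add_zero]
      rw [← xN_abs]
      exact xN_anti N le_rfl (abs_nonneg _) (abs_le.2 ⟨ha1.le, ha2⟩)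
    have hI : (FN N Complex.I).re = xN N (Real.pi / 2) := by
      have := (h1 N (Real.pi / 2)).2
      rw [show (((Real.pi / 2 : ℝ) : ℂ) * Complex.I) = (Real.pi : ℂ) / 2 * Complex.I by push_cast; ring,
        Complex.exp_pi_div_two_mul_I] at this
      rw [this]
      simp only [Complex.add_re, Complex.ofReal_re, Complex.mul_re, Complex.I_re, mul_zero,
        Complex.ofReal_im, Complex.I_im, mul_one, sub_self, add_zero]
    have hlt0 : xN N (Real.pi / 2) < xN N 0 := by
      have e0 : xN N (Real.pi / 2) ≤ xN N θ := xN_anti N hθ.le hθ'.le (by linarith)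
      exact lt_of_le_of_lt e0 (hx.trans_le (re_le (FN_diff N) hcirc hz))
    have hs : (FN N z).re < xN N 0 :=
      re_lt (FN_diff N) hcirc (w := Complex.I) (by simp) (by rw [hI]; exact hlt0) hlt
    -- the angle with the same real part
    obtain ⟨θ1, ht1, ht2⟩ := intermediate_value_Icc' hθ.le (xN_cont N).continuousOn
      (show (FN N z).re ∈ Icc (xN N θ) (xN N 0) from ⟨hx.le, hs.le⟩)
    have hp1 : 0 < θ1 := by
      rcases ht1.1.lt_or_eq with h | h
      · exact h
      · rw [← h] at ht2; linarith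
    have hp2 : θ1 < Real.pi / 2 := lt_of_le_of_lt ht1.2 hθ'
    -- the two points of the strip
    have hne : (1 : ℂ) - z ≠ 0 := by
      intro h
      have : z = 1 := (sub_eq_zero.1 h).symm
      rw [this] at hlt
      simp at hlt
    set q : ℂ := (1 + z) / (1 - z) with hq
    have hqre : 0 < q.re := by
      have e : q = ((1 + z) * conj (1 - z)) / ((Complex.normSq (1 - z) : ℝ) : ℂ) := by
        rw [hq, ← Complex.mul_conj]
        have : conj ((1 : ℂ) - z) ≠ 0 := by
          rw [Ne, map_eq_zero]; exact hne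
        field_simp
      have hn : 0 < Complex.normSq (1 - z) := Complex.normSq_pos.2 hne
      rw [e, Complex.div_ofReal_re]
      apply div_pos _ hn
      have hz2 : z.re * z.re + z.im * z.im < 1 := by
        have := Complex.normSq_eq_norm_sq z
        rw [Complex.normSq_apply] at this
        rw [this]
        nlinarith [norm_nonneg z]
      simp only [map_sub, map_one, Complex.mul_re, Complex.add_re, Complex.one_re, Complex.sub_re,
        Complex.conj_re, Complex.add_im, Complex.one_im, Complex.sub_im, Complex.conj_im]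
      nlinarith
    have hq0 : q ≠ 0 := by
      intro h; rw [h] at hqre; simp at hqre
    set a : ℂ := Complex.log q with ha
    have haim : |a.im| < Real.pi / 2 := by
      rw [ha, Complex.log_im]
      exact Complex.abs_arg_lt_pi_div_two_iff.2 (Or.inl hqre)
    have hwa : ww a = z := by
      unfold ww
      rw [ha, Complex.exp_log hq0, hq]
      field_simp
      ring
    set h : ℝ := θ1 / 2 with hh
    have hsin : 0 < Real.sin h := Real.sin_pos_of_pos_of_lt_pi (by linarith) (by linarith)
    have hcos : 0 < Real.cos h := Real.cos_pos_of_mem_Ioo ⟨by linarith, by linarith⟩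
    set b : ℂ := ((Real.log (Real.cos h / Real.sin h) : ℝ) : ℂ) + (Real.pi : ℂ) / 2 * Complex.I with hb
    have hbim : b.im = Real.pi / 2 := by
      rw [hb, show ((Real.pi : ℂ) / 2) = ((Real.pi / 2 : ℝ) : ℂ) by push_cast; ring]
      simp only [Complex.add_im, Complex.ofReal_im, Complex.mul_im, Complex.ofReal_re,
        Complex.I_im, mul_one, Complex.I_re, mul_zero, add_zero, zero_add]
    have hexpb : Complex.exp b = ((Real.cos h / Real.sin h : ℝ) : ℂ) * Complex.I := by
      rw [hb, Complex.exp_add, Complex.exp_pi_div_two_mul_I, ← Complex.ofReal_exp,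
        Real.exp_log (div_pos hcos hsin)]
    have hwb : ww b = Complex.exp ((θ1 : ℂ) * Complex.I) := by
      have e1 : Complex.exp ((θ1 : ℂ) * Complex.I) = Complex.exp ((h : ℂ) * Complex.I) ^ 2 := by
        rw [← Complex.exp_nat_mul]
        congr 1
        rw [hh]; push_cast; ring
      have e2 : Complex.exp ((h : ℂ) * Complex.I) = (Real.cos h : ℂ) + (Real.sin h : ℂ) * Complex.I := by
        rw [Complex.exp_mul_I, Complex.ofReal_cos, Complex.ofReal_sin]
      have e3 : (Real.cos h : ℂ) ^ 2 + (Real.sin h : ℂ) ^ 2 = 1 := by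
        rw [← Complex.ofReal_pow, ← Complex.ofReal_pow, ← Complex.ofReal_add,
          Real.cos_sq_add_sin_sq, Complex.ofReal_one]
      have hs0 : (Real.sin h : ℂ) ≠ 0 := by exact_mod_cast hsin.ne'
      have hden := exp_ne (φ := b) (by rw [hbim, abs_of_pos (by linarith)])
      unfold ww
      rw [div_eq_iff hden, hexpb, e1, e2]
      push_cast
      rw [Complex.ofReal_cos, Complex.ofReal_sin] at *
      field_simp
      linear_combination (Complex.sin h - Complex.cos h * Complex.I) * e3 +
        (-2 * Complex.cos h ^ 2 * Complex.sin h - Complex.cos h * Complex.sin h ^ 2 * Complex.I -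
          Complex.sin h ^ 3) * Complex.I_sq
    have key := f_mono h1 N (a := a) (b := b) haim.le (by rw [hbim, abs_of_pos (by linarith)])
    rw [hwa, hwb, (h1 N θ1).2, ht2] at key
    have e4 : ((((FN N z).re : ℝ) : ℂ) + (yN N θ1 : ℂ) * Complex.I - FN N z) =
        ((yN N θ1 - (FN N z).im : ℝ) : ℂ) * Complex.I := by
      apply Complex.ext <;> simp
    rw [e4] at key
    have e5 : ((((yN N θ1 - (FN N z).im : ℝ) : ℂ) * Complex.I) * conj (b - a)).re =
        (yN N θ1 - (FN N z).im) * (Real.pi / 2 - a.im) := by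
      simp only [Complex.mul_re, Complex.ofReal_re, Complex.ofReal_im, Complex.I_re, Complex.I_im,
        Complex.mul_im, Complex.conj_re, Complex.conj_im, Complex.sub_re, Complex.sub_im, hbim]
      ring
    rw [e5] at key
    have hpos : 0 < Real.pi / 2 - a.im := by linarith [(abs_lt.1 haim).2]
    have hD := nonneg_of_mul_nonneg_left key hpos
    have := yN_mono h2 N (a := θ1) (b := θ) (by linarith) ht1.2 hθ'.le
    linarith
  · obtain ⟨α, ha1, ha2, rfl⟩ := circ heq
    rw [(h1 N α).2] at hx ⊢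
    simp only [Complex.add_re, Complex.ofReal_re, Complex.mul_re, Complex.I_re, mul_zero,
      Complex.ofReal_im, Complex.I_im, mul_one, sub_self, add_zero] at hx
    simp only [Complex.add_im, Complex.ofReal_im, Complex.mul_im, Complex.ofReal_re,
      Complex.I_im, mul_one, Complex.I_re, mul_zero, add_zero, zero_add]
    have hlt : |α| < θ := by
      by_contra hcon
      push Not at hcon
      have := xN_anti N hθ.le hcon (abs_le.2 ⟨ha1.le, ha2⟩)
      rw [xN_abs] at this
      linarith
    rw [abs_lt] at hlt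
    exact yN_mono h2 N (by linarith) hlt.2.le hθ'.le

theorem P4 (h1 : S_P1) (h2 : S_P2) : S_P4 := by
  intro N z hz
  have hn : ‖-z‖ ≤ 1 := by rwa [norm_neg]
  have hc : ‖conj z‖ ≤ 1 := by rwa [RCLike.norm_conj]
  have hcn : ‖-conj z‖ ≤ 1 := by rwa [norm_neg]
  have hcirc : ∀ w : ℂ, ‖w‖ = 1 → (FN N w).re ≤ xN N 0 := by
    intro w hw
    obtain ⟨α, ha1, ha2, rfl⟩ := circ hw
    rw [(h1 N α).2]
    simp only [Complex.add_re, Complex.ofReal_re, Complex.mul_re, Complex.I_re, mul_zero,
      Complex.ofReal_im, Complex.I_im, mul_one, sub_self, add_zero]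
    rw [← xN_abs]
    exact xN_anti N le_rfl (abs_nonneg _) (abs_le.2 ⟨ha1.le, ha2⟩)
  constructor
  · rw [abs_le]
    have e1 := re_le (FN_diff N) hcirc hz
    have e2 := re_le (FN_diff N) hcirc hn
    rw [FN_neg, Complex.neg_re] at e2
    exact ⟨by linarith, e1⟩
  · intro θ h0 hθ hx
    rcases lt_abs.1 hx with h | h
    · rw [abs_le]
      have e1 := main_aux h1 h2 N hz h0 hθ h
      have e2 := main_aux h1 h2 N hc h0 hθ (by rw [FN_conj, Complex.conj_re]; exact h)
      rw [FN_conj, Complex.conj_im] at e2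
      exact ⟨by linarith, e1⟩
    · rw [abs_le]
      have e1 := main_aux h1 h2 N hn h0 hθ (by rw [FN_neg, Complex.neg_re]; exact h)
      have e2 := main_aux h1 h2 N hcn h0 hθ (by
        rw [FN_neg, FN_conj, Complex.neg_re, Complex.conj_re]; exact h)
      rw [FN_neg, Complex.neg_im] at e1
      rw [FN_neg, FN_conj, Complex.neg_im, Complex.conj_im] at e2
      exact ⟨by linarith, by linarith⟩

end Run7.h751.FL
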